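import Pool.Agent.Helper53.CX.M_Ext
import Pool.Agent.Helper53.CX.M_Mon
import Pool.Agent.Helper53.CX.M_Pad
import Pool.Agent.Helper53.CX.M_TorV
import Pool.Agent.Helper53.CX.M_TorOm
import Pool.Agent.Helper53.CX.M_PadV
import Pool.Agent.Helper53.CX.M_Fac
import Pool.Agent.Helper53.CX.M_Bri
import Pool.Agent.Helper53.CX.M_MonL
import Pool.Agent.Helper53.CX.M_Der
import Pool.Agent.Helper53.CX.M_JacEx
import Pool.Agent.Helper53.CX.M_Norm
import Pool.Agent.Helper53.CX.M_Trc
import Pool.Agent.Helper53.CX.M_Cvx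
import Pool.Agent.Helper53.CX.M_Rig
import Pool.Agent.Helper53.CX.M_Rnk
import Pool.Agent.Helper53.CX.M_Tau
import Pool.Agent.Helper53.CX.M_Pull
import Pool.Agent.Helper75.CO.M_PHI
import Pool.Agent.Helper1.CO.M_EX
import Pool.Agent.Helper13.CO.M_UNI
import Pool.Agent.Helper99.CO.M_TOR
import Pool.Agent.Helper47.CO.M_OMS
import Pool.Agent.Helper82.CO.M_PDC
import Pool.Agent.Helper38.CO.M_TRM
import Pool.Agent.Helper18.CO.M_COR
import Pool.Agent.Helper45.CO.M_BND
import Pool.Agent.Helper62.CO.M_PRI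
import Pool.Agent.Helper8.CO.M_NEA
import Pool.Agent.Helper21.CO.M_NEB
import Pool.Agent.Helper79.CO.M_NEC
import Pool.Agent.Helper66.CO.M_CMB
import Pool.Agent.Helper81.CO.M_ADM
import Pool.Agent.Helper97.CO.M_SUC
import Pool.Agent.Helper83.CO.M_FIC

/-!
# MP_140278_ag: generalized complexity and varieties with a contraction to a variety with a torus action of complexity one

Let `(X,B,M)` be a generalized log Calabi-Yau pair on a normal projective variety `X` of dimension
`n = k + 1` with function field `C(x_0,...,x_k)`, with nef part `∑ b_i M_i`, `M_i` nef Cartier (on some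
higher model, not necessarily semiample) and not principal.  Let `X0` be a complete rational variety with
a torus action of complexity one and `t + 2` critical points, `t = |P| ≥ 1`.  If every prime divisor of
`X0` is a prime divisor of `X` or a glc place of `(X,B,M)`, in particular if there is a birational
contraction `X ⇢ X0`, then `∑ a_i + ∑ b_i ≤ dim X + rank Cl(X) - t`.
-/

open scoped BigOperators

namespace Pool.Agent.Results.MP_140278_ag.ComplexityOne

open Pool.Agent.Helper53.CX Pool.Agent.Helper83.CO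

theorem result {k : ℕ} (X : ProjVar (k + 1)) {ι : Type} [Fintype ι] (p : PairData (k + 1) ι)
    (hp : IsGenLCY X.primeDivisors p)
    (P : Finset ℂ) (D : Finset (Option ℂ × (Fin (k + 1) → ℤ))) (hD : IsC1 P D)
    (hX : ∀ v : DivVal (Kn (k + 1)), IsC1Prime P D v → v ∈ X.primeDivisors ∨ p.B v = 1)
    (C : Finset (DivVal (Kn (k + 1)))) (hC : (C : Set (DivVal (Kn (k + 1)))) ⊆ X.primeDivisors)
    (ρ : ℕ) (hρ : Module.rank ℝ (Cl X.primeDivisors) = (ρ : Cardinal)) :
    ∑ v ∈ C, p.B v + ∑ i, p.b i + P.card ≤ ((k + 1 : ℕ) : ℝ) + ρ := by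
  have hTorV := hTorV hExt hMon
  have hTorOm := hTorOm hExt hMon
  have hPadV := hPadV hExt hPad
  have hFac := hFac hExt hPad
  have hBri := hBri hExt hMon hPad
  have hMonL := hMonL hExt hMon
  have hNorm := hNorm hExt hPad hPadV hFac
  have hRig := hRig hExt hMon hTorV hMonL hDer
  have hRnk := hRnk hExt hPad hPadV hFac hBri
  have hPull := hPull (hJacEx hDer)
  have hPHI := Helper75.CO.hPHI
  have hEX := Helper1.CO.hEX hPHI hExt hMon hTorV hTau
  have hUNI := Helper13.CO.hUNI hPHI
  have hTOR := Helper99.CO.hTOR hPHI hUNI hExt hMon hTorV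
  have hOMS := Helper47.CO.hOMS hUNI hEX hTOR hExt hMon hTorOm hTau hPull
  have hPDC := Helper82.CO.hPDC hPHI hUNI hEX hExt hPad hPadV
  have hTRM := Helper38.CO.hTRM hPHI hUNI
  have hCOR := Helper18.CO.hCOR
  have hBND := Helper45.CO.hBND
  have hPRI := Helper62.CO.hPRI hUNI hTOR hPDC hTRM hCOR hBND hExt hPad hTorV hPadV hMonL
  have hNEA := Helper8.CO.hNEA hTRM hCOR
  have hNEB := Helper21.CO.hNEB hTRM hBND
  have hNEC := Helper79.CO.hNEC hUNI hTOR hPDC hNEA hNEB hExt hMon hTorV hPadV hRig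
  have hCMB := Helper66.CO.hCMB
  have hADM := Helper81.CO.hADM hEX hCMB
  have hSUC := Helper97.CO.hSUC hEX hOMS hPRI hNEC hADM hExt hPadV hFac hBri hNorm
  exact hFIC hUNI hPDC hSUC hBri hPadV hRnk k ι X.primeDivisors p hp P D hD hX C ρ hC hρ

end Pool.Agent.Results.MP_140278_ag.ComplexityOne
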