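import Pool.Agent.Helper98.GX.St2
import Pool.Agent.Helper98.GX.M_STAR
import Pool.Agent.Helper32.GX.M_LAM
import Pool.Agent.Helper67.GX.M_CST
import Pool.Agent.Helper7.GX.M_RNK
import Pool.Agent.Helper55.GX.M_JLB
import Pool.Agent.Helper17.GX.M_JEX
import Pool.Agent.Helper13.GX.M_SUM
import Pool.Agent.Helper38.GX.M_FIN

/-!
# MP_140278_ag: generalized complexity and the vertex of the total coordinate space

Let `(X,B,M)` be a generalized log Calabi-Yau pair on a normal projective variety `X` with an arbitrary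
function field `K` of dimension `n`, with nef part `∑ b_i M_i`, `M_i` nef Cartier (on some higher
model, not necessarily semiample) and not numerically trivial.  Let `X0` be a normal projective variety
with function field `K` such that every prime divisor of `X0` is a prime divisor of `X` or a glc place
(for instance `X = X0`, or there is a birational contraction `X ⇢ X0`).

(1) For every divisor `E` over the vertex of the total coordinate space of `X0`:
`∑ a_i + ∑ b_i + rank Cl(X0) ≤ A(E) + rank Cl(X)`, `A(E)` the log discrepancy.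
(2) An upper bound for `A(E)`.
-/

open scoped BigOperators

namespace Pool.Agent.Results.MP_140278_ag.CoxVertex

open Pool.Agent.Helper53.CX (DivVal LinSys IsNefCartier)
open Pool.Agent.Helper98.GX

/-- the Jacobian minimum which defines the order of `dz_1/z_1 ... dz_n/z_n` exists for every
divisorial valuation, so `ordOmega L v` is minus this minimum -/
theorem jac_min_exists {K : Type} [Field K] [Algebra ℂ K] {n : ℕ} (L : LogCoord K n)
    (v : DivVal K) : IsJacMin L v (- ordOmega L v) := by
  have h : ∃ e : ℤ, IsJacMin L v e := Helper17.GX.hJEX K n L v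
  unfold ordOmega
  rw [dif_pos h, neg_neg]
  exact h.choose_spec

theorem result {K : Type} [Field K] [Algebra ℂ K] {n : ℕ} (L : LogCoord K n)
    (X0 X : NormalProj K) {ι : Type} [Fintype ι] (p : PairData K ι)
    (hp : IsGenLCY L X.primes p)
    (hX : ∀ q ∈ X0.primes, q ∈ X.primes ∨ p.B L q = 1)
    (C : Finset (DivVal K)) (hC : (C : Set (DivVal K)) ⊆ X.primes)
    (ρ : ℕ) (hρ : Module.rank ℝ (Cl X.primes) = (ρ : Cardinal)) :
    (∀ (E : VertexVal X0) (ρ0 : ℕ), Module.rank ℝ (Cl X0.primes) = (ρ0 : Cardinal) →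
      ∑ v ∈ C, p.B L v + ∑ i, p.b i + ρ0 ≤ (E.logDisc L : ℝ) + ρ) ∧
    (∀ (E : VertexVal X0) (Y : Finset (DivVal K)),
      (∀ q ∈ X0.primes, (∃ j, q.ord (L.z j) ≠ 0) → q ∈ Y) →
      E.logDisc L ≤ (E.κ : ℤ) * (ordOmega L E.w + 1) + ∑ q ∈ Y, (E.lam q : ℤ)) := by
  have hSTAR := hSTAR
  have hLAM := Helper32.GX.hLAM hSTAR
  have hCST := Helper67.GX.hCST hSTAR
  have hRNK := Helper7.GX.hRNK hCST
  have hJLB := Helper55.GX.hJLB
  have hSUM := Helper13.GX.hSUM hLAM hJLB
  have hFIN := Helper38.GX.hFIN hRNK hSUM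
  refine ⟨?_, ?_⟩
  · intro E ρ0 hρ0
    exact hFIN K n L X0 X E ι p hp hX C hC ρ0 ρ hρ0 hρ
  · intro E Y hY
    exact (hSUM K n L X0 E ι X.primes p hp hX).2 Y hY

end Pool.Agent.Results.MP_140278_ag.CoxVertex
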