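import Pool.Agent.Helper98.GX.St4
import Pool.Agent.Helper98.GX.M_STAR
import Pool.Agent.Helper32.GX.M_LAM
import Pool.Agent.Helper67.GX.M_CST
import Pool.Agent.Helper7.GX.M_RNK
import Pool.Agent.Helper55.GX.M_JLB
import Pool.Agent.Helper17.GX.M_JEX
import Pool.Agent.Helper13.GX.M_SUM
import Pool.Agent.Helper38.GX.M_FIN
import Pool.Agent.Helper9.GX.M_FSP
import Pool.Agent.Helper36.GX.M_GRO
import Pool.Agent.Helper67.GX.M_CBD
import Pool.Agent.Helper16.GX.M_CBV
import Pool.Agent.Helper86.GX.M_CBY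
import Pool.Agent.Helper47.GX.M_CBR
import Pool.Agent.Helper55.GX.M_CBS
import Pool.Agent.Helper61.GX.M_FIC
import Pool.Agent.Helper27.GX.M_EQ1
import Pool.Agent.Helper48.GX.M_EQ2
import Pool.Agent.Helper66.GX.M_UNQ
import Pool.Agent.Helper26.GX.M_KER
import Pool.Agent.Helper46.GX.M_CRA
import Pool.Agent.Helper67.GX.M_LPX
import Pool.Agent.Helper30.GX.M_BAS
import Pool.Agent.Helper15.GX.M_DRV
import Pool.Agent.Helper72.GX.M_REG
import Pool.Agent.Helper51.GX.M_GAM
import Pool.Agent.Helper21.GX.M_OUR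
import Pool.Agent.Helper65.GX.M_SIG
import Pool.Agent.Helper54.GX.M_PRF
import Pool.Agent.Helper18.GX.M_PRI
import Pool.Agent.Helper13.GX.M_SEC
import Pool.Agent.Helper21.GX.M_ALI
import Pool.Agent.Helper86.GX.M_LIN
import Pool.Agent.Helper53.GX.M_LFR
import Pool.Agent.Helper67.GX.M_NRM
import Pool.Agent.Helper60.GX.M_POL
import Pool.Agent.Helper27.GX.M_TRO
import Pool.Agent.Helper69.GX.M_PJK
import Pool.Agent.Helper61.GX.M_FAM
import Pool.Agent.Helper34.GX.M_MVF
import Pool.Agent.Helper80.GX.M_STA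
import Pool.Agent.Helper38.GX.M_CMB
import Pool.Agent.Helper94.GX.M_GLA
import Pool.Agent.Helper72.GX.M_GLB
import Pool.Agent.Helper63.GX.M_MNO
import Pool.Agent.Helper7.GX.M_TPR
import Pool.Agent.Helper62.GX.M_FTR
import Pool.Agent.Helper77.GX.M_FI3
import Pool.Agent.Helper53.CX.M_Ext
import Pool.Agent.Helper53.CX.M_Mon
import Pool.Agent.Helper53.CX.M_Pad
import Pool.Agent.Helper53.CX.M_TorV
import Pool.Agent.Helper53.CX.M_TorOm
import Pool.Agent.Helper53.CX.M_Bri
import Pool.Agent.Helper53.CX.M_Der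
import Pool.Agent.Helper53.CX.M_JacEx
import Pool.Agent.Helper53.CX.M_Tau
import Pool.Agent.Helper53.CX.M_Gen
import Pool.Agent.Helper53.CX.M_Pull
import Pool.Agent.Helper53.CX.M_JacT
import Pool.Agent.Helper53.CX.M_OmT
import Pool.Agent.Helper53.CX.M_LC
import Pool.Agent.Helper53.CX.M_TorT
import Pool.Agent.Helper53.CX.M_Poly
import Pool.Agent.Helper53.CX.M_GL
import Pool.Agent.Helper53.CX.M_Phi
import Pool.Agent.Helper53.CX.M_Fil
import Pool.Agent.Helper53.CX.M_Iz
import Pool.Agent.Helper53.CX.M_CI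
import Pool.Agent.Helper53.CX.M_CII
import Pool.Agent.Helper53.CX.M_Pt
import Pool.Agent.Helper53.CX.M_Vmin
import Pool.Agent.Helper53.CX.M_BasI
import Pool.Agent.Helper53.CX.M_BasII
import Pool.Agent.Helper53.CX.M_Uniq
import Pool.Agent.Helper53.CX.M_Prj

/-!
# MP_140278_ag: the generalized complexity conjecture over varieties with a free class cone

Let `(X,B,M)` be a generalized log Calabi-Yau pair on a normal projective variety `X` with an arbitrary
function field `K` of dimension `n ≥ 1`, with nef part `∑ b_i M_i`, `M_i` nef Cartier (on some higher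
model, not necessarily semiample) and not numerically trivial.  Let `X0` be a normal projective variety
with function field `K` such that every prime divisor of `X0` is a prime divisor of `X` or a glc place
(for instance `X = X0`, or there is a birational contraction `X ⇢ X0`).  Suppose that the class group of
`X0` has a basis of classes `H_1..H_r` of linear systems such that all prime divisors are linearly equivalent
to nonnegative combinations, and that the coordinates `z_j` are quotients of at most `n + r` sections of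
the `H_k`.
Then `∑ a_i + ∑ b_i ≤ dim X + rank Cl(X)`.  If equality holds and there is at least one section for
each `k`, then `X` is toric, and so is `X0`.
-/

open scoped BigOperators

namespace Pool.Agent.Results.MP_140278_ag.FreeClassCone

open Pool.Agent.Helper53.CX (DivVal LinSys IsNefCartier)
open Pool.Agent.Helper98.GX

/-- the Jacobian minimum which defines the order of `dz_1/z_1 ... dz_n/z_n` exists for every
divisorial valuation, so `ordOmega L v` is minus this minimum -/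
theorem jac_min_exists {K : Type} [Field K] [Algebra ℂ K] {n : ℕ} (L : LogCoord K n)
    (v : DivVal K) : IsJacMin L v (- ordOmega L v) := by
  have h : ∃ e : ℤ, IsJacMin L v e := Helper17.GX.hJEX K n L v
  unfold ordOmega
  rw [dif_pos h, neg_neg]
  exact h.choose_spec

theorem result {K : Type} [Field K] [Algebra ℂ K] {n : ℕ} (hn : 0 < n) (L : LogCoord K n)
    (X0 X : NormalProj K) {r : ℕ} (D : ClassBasis X0 r) (z : SectionCoord D L) {ι : Type} [Fintype ι] (p : PairData K ι)
    (hp : IsGenLCY L X.primes p)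
    (hX : ∀ q ∈ X0.primes, q ∈ X.primes ∨ p.B L q = 1)
    (C : Finset (DivVal K)) (hC : (C : Set (DivVal K)) ⊆ X.primes)
    (ρ : ℕ) (hρ : Module.rank ℝ (Cl X.primes) = (ρ : Cardinal)) :
    ∑ v ∈ C, p.B L v + ∑ i, p.b i ≤ (n : ℝ) + ρ ∧
    (∑ v ∈ C, p.B L v + ∑ i, p.b i = (n : ℝ) + ρ → (∀ k, (z.s k).Nonempty) →
      IsToricVariety n X.primes ∧ IsToricVariety n X0.primes) := by
  have hSTAR := hSTAR
  have hLAM := Helper32.GX.hLAM hSTAR
  have hCST := Helper67.GX.hCST hSTAR
  have hRNK := Helper7.GX.hRNK hCST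
  have hJLB := Helper55.GX.hJLB
  have hJEX := Helper17.GX.hJEX
  have hSUM := Helper13.GX.hSUM hLAM hJLB
  have hFIN := Helper38.GX.hFIN hRNK hSUM
  have hFSP := Helper9.GX.hFSP
  have hGRO := Helper36.GX.hGRO
  have hCBD := Helper67.GX.hCBD hFSP
  have hCBV := Helper16.GX.hCBV hFSP hGRO hCBD
  have hCBY := Helper86.GX.hCBY hCBD
  have hCBR := Helper47.GX.hCBR hFSP hCBD
  have hCBS := Helper55.GX.hCBS hFSP hCBD
  have hFIC := Helper61.GX.hFIC hSUM hFIN hCBV hCBY hCBR hCBS
  have hEQ1 := Helper27.GX.hEQ1 hSUM hCBV hCBY hCBR hCBS hRNK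
  have hEQ2 := Helper48.GX.hEQ2 hFSP hLAM hJLB hCBD hCBV
  have hUNQ := Helper66.GX.hUNQ
  have hKER := Helper26.GX.hKER hUNQ
  have hCRA := Helper46.GX.hCRA hJEX
  have hLPX := Helper67.GX.hLPX
  have hBAS := Helper30.GX.hBAS hLPX hJLB
  have hDRV := Helper15.GX.hDRV hLPX
  have hREG := Helper72.GX.hREG hBAS hLPX hCRA hUNQ
  have hGAM := Helper51.GX.hGAM hFSP hCBD hDRV hREG hLPX hUNQ hKER
  have hOUR := Helper21.GX.hOUR hGAM
  have hSIG := Helper65.GX.hSIG hFSP hOUR
  have hPRF := Helper54.GX.hPRF hOUR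
  have hPRI := Helper18.GX.hPRI hBAS hLPX hSIG hPRF
  have hSEC := Helper13.GX.hSEC hLPX
  have hALI := Helper21.GX.hALI
  have hLIN := Helper86.GX.hLIN hSEC hDRV hUNQ hALI hJEX
  have hLFR := Helper53.GX.hLFR hFSP hCBD hLPX hSEC hGAM hLIN
  have hNRM := Helper67.GX.hNRM hFSP hCBD
  have hPOL := Helper60.GX.hPOL
  have hTRO := Helper27.GX.hTRO hUNQ
  have hTorV := Helper53.CX.hTorV Helper53.CX.hExt Helper53.CX.hMon
  have hTorOm := Helper53.CX.hTorOm Helper53.CX.hExt Helper53.CX.hMon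
  have hBri := Helper53.CX.hBri Helper53.CX.hExt Helper53.CX.hMon Helper53.CX.hPad
  have hJacEx := Helper53.CX.hJacEx Helper53.CX.hDer
  have hLC := Helper53.CX.hLC hJacEx Helper53.CX.hExt Helper53.CX.hMon hBri
  have hTorT := Helper53.CX.hTorT Helper53.CX.hExt Helper53.CX.hMon hTorV hTorOm Helper53.CX.hGen
  have hGL := Helper53.CX.hGL Helper53.CX.hGen
  have hPhi := Helper53.CX.hPhi Helper53.CX.hExt Helper53.CX.hMon hTorV
  have hFil := Helper53.CX.hFil Helper53.CX.hExt Helper53.CX.hMon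
  have hIz := Helper53.CX.hIz Helper53.CX.hDer
  have hCI := Helper53.CX.hCI hIz
  have hCII := Helper53.CX.hCII Helper53.CX.hTau Helper53.CX.hGen hIz
  have hVmin := Helper53.CX.hVmin Helper53.CX.hGen
  have hBasI := Helper53.CX.hBasI Helper53.CX.hGen Helper53.CX.hPt hVmin
  have hBasII := Helper53.CX.hBasII Helper53.CX.hGen Helper53.CX.hPt hVmin
  have hUniq := Helper53.CX.hUniq Helper53.CX.hTau Helper53.CX.hGen hGL hPhi hFil hTorT hVmin
  have hPrj := Helper53.CX.hPrj Helper53.CX.hGen hCI hCII hBasI hBasII hUniq hVmin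
  have hPJK := Helper69.GX.hPJK hBAS hLPX hSIG hPRF hPRI hSEC hNRM hPOL hTRO hPrj hVmin
  have hFAM := Helper61.GX.hFAM hFSP hCST hCBD hGAM hSEC hPJK
  have hMVF := Helper34.GX.hMVF hLPX hSIG hTRO
  have hSTA := Helper80.GX.hSTA hSEC hLFR hMVF
  have hCMB := Helper38.GX.hCMB
  have hGLA := Helper94.GX.hGLA
  have hGLB := Helper72.GX.hGLB hSEC hJLB hLFR hGLA
  have hMNO := Helper63.GX.hMNO hTRO hLC hBri
  have hTPR := Helper7.GX.hTPR hTRO
  have hFTR := Helper62.GX.hFTR hLPX hSIG hPRF hMNO hTPR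
  have hFI3 := Helper77.GX.hFI3 hEQ1 hEQ2 hFAM hSTA hCMB hLFR hGLB hFTR
  refine ⟨hFIC K n L X0 X r D z ι p hp hX C hC ρ hρ, fun heq hz => ⟨?_, ?_⟩⟩
  · exact hFI3 K n L X0 X r D z hn hz ι p hp hX C hC ρ hρ heq.ge
  · obtain ⟨-, F, hF, hF0, hFle⟩ := hEQ1 K n L X0 X r D z ι p hp hX C hC ρ hρ heq.ge
    obtain ⟨⟨Fr⟩, -, -⟩ := hEQ2 K n L X0 r D z hz ι X.primes p hp hX F hF hF0 hFle
    exact hFTR K X0 r D n L Fr X0.primes (fun _ => 0) (fun v hv => Or.inl hv)
      (fun q hq => Or.inl hq) (fun v hv => absurd hv (by norm_num))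

end Pool.Agent.Results.MP_140278_ag.FreeClassCone
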