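import Pool.Agent.Helper53.CX.M_Ext
import Pool.Agent.Helper53.CX.M_Mon
import Pool.Agent.Helper53.CX.M_Pad
import Pool.Agent.Helper53.CX.M_TorV
import Pool.Agent.Helper53.CX.M_TorOm
import Pool.Agent.Helper53.CX.M_PadV
import Pool.Agent.Helper53.CX.M_Fac
import Pool.Agent.Helper53.CX.M_Bri
import Pool.Agent.Helper53.CX.M_MonL
import Pool.Agent.Helper53.CX.M_Der
import Pool.Agent.Helper53.CX.M_JacEx
import Pool.Agent.Helper53.CX.M_Norm
import Pool.Agent.Helper53.CX.M_Trc
import Pool.Agent.Helper53.CX.M_Cvx
import Pool.Agent.Helper53.CX.M_Rig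
import Pool.Agent.Helper53.CX.M_Rnk
import Pool.Agent.Helper53.CX.M_Sum
import Pool.Agent.Helper53.CX.M_Fin1

/-!
# MP_140278_ag: the generalized complexity bound for varieties with a contraction to a toric variety

Let `(X,B,M)` be a generalized log Calabi-Yau pair on a normal projective variety `X` with function
field `C(x_1,...,x_n)`, with nef part `∑ b_i M_i`, `M_i` nef Cartier (on some higher model, not
necessarily semiample) and not principal. If every prime divisor of some complete toric variety `X_0`
(birational to `X`) is a prime divisor of `X` or a glc place of `(X,B,M)`, in particular if there is a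
birational contraction `X ⇢ X_0`, then `∑ a_i + ∑ b_i ≤ dim X + rank Cl(X)`.
-/

open scoped BigOperators

namespace Pool.Agent.Results.MP_140278_ag.ToricContraction

open Pool.Agent.Helper53.CX

/-- the Jacobian minimum which defines the order of `dx_1/x_1 ... dx_n/x_n` exists for every
divisorial valuation, so `ordOmega v` is minus this minimum -/
theorem jac_min_exists (n : ℕ) (v : DivVal (Kn n)) : IsJacMin v (- ordOmega v) := by
  have h : ∃ e : ℤ, IsJacMin v e := hJacEx hDer n v
  unfold ordOmega
  rw [dif_pos h, neg_neg]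
  exact h.choose_spec

theorem result {n : ℕ} (hn : 0 < n) (X : ProjVar n) {ι : Type} [Fintype ι] (p : PairData n ι)
    (hp : IsGenLCY X.primeDivisors p)
    (R : Finset (Fin n → ℤ)) (hR : IsCompleteFanRays R)
    (hX : ∀ v : DivVal (Kn n), IsToricPrimeDivisor R v → v ∈ X.primeDivisors ∨ p.B v = 1)
    (C : Finset (DivVal (Kn n))) (hC : (C : Set (DivVal (Kn n))) ⊆ X.primeDivisors)
    (ρ : ℕ) (hρ : Module.rank ℝ (Cl X.primeDivisors) = (ρ : Cardinal)) :
    ∑ v ∈ C, p.B v + ∑ i, p.b i ≤ (n : ℝ) + ρ := by
  have hTorV := hTorV hExt hMon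
  have hTorOm := hTorOm hExt hMon
  have hPadV := hPadV hExt hPad
  have hFac := hFac hExt hPad
  have hBri := hBri hExt hMon hPad
  have hMonL := hMonL hExt hMon
  have hNorm := hNorm hExt hPad hPadV hFac
  have hTrc := hTrc hExt hMon hTorV hMonL
  have hRig := hRig hExt hMon hTorV hMonL hDer
  have hRnk := hRnk hExt hPad hPadV hFac hBri
  have hSum := hSum hExt hMon hTorV hTorOm hPadV hFac hBri hMonL hNorm hTrc hCvx hRig
  exact hFin1 hBri hPadV hTorV hSum hRnk n ι X.primeDivisors p hn hp R hR hX C ρ hC hρ

end Pool.Agent.Results.MP_140278_ag.ToricContraction
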